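import Pool.Agent.Lib.helper9.BorsukUlam

set_option autoImplicit false
open Set Metric Filter Topology

namespace Pool.Agent.H.MP_438bde_an

theorem noretr {E : Type*} [NormedAddCommGroup E] [NormedSpace ℝ E] [FiniteDimensional ℝ E]
    (G : E → E) (hG : Continuous G) (hb : ∀ x, ‖x‖ = 1 → G x = x) : ∃ x, G x = 0 := by
  obtain ⟨z, hz, h⟩ := Pool.Agent.Lib.helper9.BorsukUlam.borsuk_ulam (E := E × ℝ) (F := E)
    (Or.inr (by simp)) (fun z => ((1 + z.2) / 2) • G z.1 - ((1 - z.2) / 2) • G (-z.1))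
    (Continuous.continuousOn (by fun_prop)) (fun z _ => by
      simp only [Prod.fst_neg, Prod.snd_neg, neg_neg, neg_sub, sub_neg_eq_add]
      rw [← sub_eq_add_neg])
  rw [Prod.norm_def] at hz
  rcases max_choice ‖z.1‖ ‖z.2‖ with h1 | h1
  · rw [h1] at hz
    rw [hb _ hz, hb _ (by rwa [norm_neg]), smul_neg, sub_neg_eq_add, ← add_smul] at h
    have : (1 + z.2) / 2 + (1 - z.2) / 2 = 1 := by ring
    rw [this, one_smul] at h
    rw [h] at hz
    simp at hz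
  · rw [h1, Real.norm_eq_abs] at hz
    rcases (abs_eq zero_le_one).1 hz with h2 | h2
    · exact ⟨z.1, by simpa [h2] using h⟩
    · exact ⟨-z.1, by simpa [h2] using h⟩

theorem brouwer1 {E : Type*} [NormedAddCommGroup E] [NormedSpace ℝ E] [FiniteDimensional ℝ E]
    (f : E → E) (hf : Continuous f) (hb : ∀ x, ‖f x‖ ≤ 1) : ∃ x, f x = x := by
  obtain ⟨y, hy⟩ := noretr (fun y => y - (max 0 (min 1 (2 - 2 * ‖y‖)) / 2) • f ((2 : ℝ) • y))
    (by fun_prop) (fun x hx => by simp [hx])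
  have h1 : ‖y‖ ≤ 1 / 2 := by
    rw [sub_eq_zero] at hy
    rw [hy, norm_smul, Real.norm_eq_abs, abs_of_nonneg (by positivity)]
    have : max 0 (min 1 (2 - 2 * ‖y‖)) ≤ 1 := max_le zero_le_one (min_le_left _ _)
    have h2 := hb ((2 : ℝ) • y)
    have h3 : 0 ≤ max 0 (min 1 (2 - 2 * ‖y‖)) := le_max_left _ _
    nlinarith [norm_nonneg (f ((2 : ℝ) • y))]
  rw [min_eq_left (by linarith), max_eq_right zero_le_one, sub_eq_zero] at hy
  refine ⟨(2 : ℝ) • y, ?_⟩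
  conv_rhs => rw [hy]
  rw [smul_smul]; norm_num

theorem brouwer {E : Type*} [NormedAddCommGroup E] [NormedSpace ℝ E] [FiniteDimensional ℝ E]
    (f : E → E) (hf : Continuous f) (M : ℝ) (hM : 0 < M) (hb : ∀ x, ‖f x‖ ≤ M) :
    ∃ x, f x = x := by
  obtain ⟨y, hy⟩ := brouwer1 (fun y => M⁻¹ • f (M • y)) (by fun_prop) (fun x => by
    rw [norm_smul, Real.norm_eq_abs, abs_of_pos (by positivity), inv_mul_le_iff₀ hM, mul_one]
    exact hb _)
  refine ⟨M • y, ?_⟩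
  conv_rhs => rw [← hy]
  rw [smul_smul, mul_inv_cancel₀ hM.ne', one_smul]

theorem lin0 {V : Type*} [NormedAddCommGroup V] [NormedSpace ℝ V] (f : V →L[ℝ] ℝ) (u : ℝ)
    (h : ∀ x, f x ≤ u) (x : V) : f x = 0 := by
  by_contra hx
  have := h (((u + 1) / f x) • x)
  rw [map_smul, smul_eq_mul, div_mul_cancel₀ _ hx] at this
  linarith

theorem sand {V : Type*} [NormedAddCommGroup V] [NormedSpace ℝ V] (h : V → ℝ)
    (hc : ConvexOn ℝ univ h) (M : ℝ) (hM : ∀ x, ‖x‖ < 1 → h x ≤ M)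
    (B : Set (V × ℝ)) (hB : Convex ℝ B) (hne : B.Nonempty) (hle : ∀ p ∈ B, p.2 ≤ h p.1) :
    ∃ (L : V →L[ℝ] ℝ) (c : ℝ), (∀ x, L x + c ≤ h x) ∧ ∀ p ∈ B, p.2 ≤ L p.1 + c := by
  have hA := hc.convex_strict_epigraph
  obtain ⟨f, u, hf0, hfA, hfB⟩ := geometric_hahn_banach_of_nonempty_interior hA hB
    (Set.disjoint_left.2 fun p hp hpB => by
      have := (interior_subset hp).2
      have := hle p hpB
      linarith)
    ⟨(0, M + 1), by
      refine interior_maximal (t := ball (0 : V) 1 ×ˢ Ioi M) ?_ (isOpen_ball.prod isOpen_Ioi) ?_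
      · rintro ⟨x, t⟩ ⟨hx, ht⟩
        refine ⟨trivial, ?_⟩
        have := hM x (by simpa using hx)
        exact lt_of_le_of_lt this ht
      · simp⟩ hne
  set κ := f (0, 1) with hκ
  set f1 : V →L[ℝ] ℝ := f.comp (ContinuousLinearMap.inl ℝ V ℝ) with hf1
  have hd : ∀ (x : V) (t : ℝ), f (x, t) = f1 x + t * κ := fun x t => by
    have : ((x, t) : V × ℝ) = (x, 0) + t • (0, 1) := by simp
    rw [this, map_add, map_smul]; simp [hf1, hκ]
  have h1 : ∀ x t, h x < t → f1 x + t * κ ≤ u := fun x t ht => by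
    rw [← hd]; exact hfA (x, t) ⟨trivial, ht⟩
  have hk : κ < 0 := by
    rcases lt_trichotomy κ 0 with hk | hk | hk
    · exact hk
    · exfalso
      apply hf0
      have h2 : ∀ x, f1 x ≤ u := fun x => by
        have := h1 x (h x + 1) (by linarith)
        rwa [hk, mul_zero, add_zero] at this
      refine ContinuousLinearMap.ext fun p => ?_
      rw [show p = (p.1, p.2) from rfl, hd, hk, lin0 f1 u h2]; simp
    · exfalso
      have := h1 0 (|h 0| + |u| / κ + 1) (by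
        have : 0 ≤ |u| / κ := by positivity
        linarith [le_abs_self (h 0)])
      rw [map_zero, add_mul, add_mul, div_mul_cancel₀ _ hk.ne'] at this
      nlinarith [le_abs_self u, abs_nonneg (h 0)]
  refine ⟨(-κ)⁻¹ • f1, -u / (-κ), fun x => ?_, fun p hp => ?_⟩
  · refine le_of_forall_gt_imp_ge_of_dense fun t ht => ?_
    have := h1 x t ht
    rw [ContinuousLinearMap.smul_apply, smul_eq_mul, inv_mul_eq_div, ← add_div,
      div_le_iff₀ (by linarith)]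
    linarith
  · have := hfB p hp
    rw [show p = (p.1, p.2) from rfl, hd] at this
    rw [ContinuousLinearMap.smul_apply, smul_eq_mul, inv_mul_eq_div, ← add_div,
      le_div_iff₀ (by linarith)]
    linarith

theorem res {X : Type*} [NormedAddCommGroup X] [NormedSpace ℝ X]
    (hr : ∀ φ : (X →L[ℝ] ℝ) →L[ℝ] ℝ, ∃ x : X, ∀ f : X →L[ℝ] ℝ, φ f = f x)
    (G : Set (X × (X →L[ℝ] ℝ))) (hm : ∀ p ∈ G, ∀ q ∈ G, 0 ≤ (p.2 - q.2) (p.1 - q.1))
    (hx : ∀ p : X × (X →L[ℝ] ℝ), (∀ q ∈ G, 0 ≤ (p.2 - q.2) (p.1 - q.1)) → p ∈ G)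
    (Ψ : X → ℝ) (hc : ConvexOn ℝ univ Ψ) (M : ℝ) (hM : ∀ x, ‖x‖ < 1 → Ψ x ≤ M)
    (hl : ∀ ρ : ℝ, ∃ r, ∀ v, ρ * ‖v‖ - Ψ v ≤ r) :
    ∃ p ∈ G, ∀ x, Ψ p.1 - p.2 (x - p.1) ≤ Ψ x := by
  set S : (X →L[ℝ] ℝ) → ℝ := fun ξ => ⨆ v, (-ξ v - Ψ v) with hS
  have hb0 : ∀ (ξ : X →L[ℝ] ℝ) (ρ r : ℝ), ‖ξ‖ ≤ ρ → (∀ v, ρ * ‖v‖ - Ψ v ≤ r) →
      ∀ v, -ξ v - Ψ v ≤ r := fun ξ ρ r h1 h2 v => by
    have h3 := ξ.le_of_opNorm_le h1 v
    have h4 := h2 v
    rw [Real.norm_eq_abs] at h3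
    linarith [neg_abs_le (ξ v)]
  have hS1 : ∀ (ξ : X →L[ℝ] ℝ) v, -ξ v - Ψ v ≤ S ξ := fun ξ v => by
    obtain ⟨r, hr⟩ := hl ‖ξ‖
    exact le_ciSup (f := fun v => -ξ v - Ψ v) ⟨r, by
      rintro _ ⟨w, rfl⟩; exact hb0 ξ _ r le_rfl hr w⟩ v
  have hS2 : ∀ (ξ : X →L[ℝ] ℝ) r, (∀ v, -ξ v - Ψ v ≤ r) → S ξ ≤ r := fun ξ r h => ciSup_le h
  have hne : G.Nonempty := by
    by_contra h
    exact h ⟨0, hx 0 fun q hq => (h ⟨q, hq⟩).elim⟩
  obtain ⟨r1, hr1⟩ := hl 1
  obtain ⟨L, c, hL1, hL2⟩ := sand (V := X × (X →L[ℝ] ℝ)) (fun p => Ψ p.1 + S p.2)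
    ⟨convex_univ, fun p _ q _ a b ha hb hab => by
      have h1 := hc.2 (mem_univ p.1) (mem_univ q.1) ha hb hab
      have h2 : S (a • p.2 + b • q.2) ≤ a * S p.2 + b * S q.2 := hS2 _ _ fun v => by
        have h3 := mul_le_mul_of_nonneg_left (hS1 p.2 v) ha
        have h4 := mul_le_mul_of_nonneg_left (hS1 q.2 v) hb
        have h5 : Ψ v = a * Ψ v + b * Ψ v := by rw [← add_mul, hab, one_mul]
        simp only [ContinuousLinearMap.add_apply, ContinuousLinearMap.smul_apply, smul_eq_mul]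
        linarith
      simp only [smul_eq_mul, Prod.fst_add, Prod.snd_add, Prod.smul_fst, Prod.smul_snd] at *
      linarith⟩ (M + r1) (fun p hp => by
      have h1 := hM p.1 (lt_of_le_of_lt (norm_fst_le p) hp)
      have h2 := hS2 p.2 r1 (hb0 p.2 1 r1 ((norm_snd_le p).trans hp.le) hr1)
      linarith)
    {p | ∀ q ∈ G, p.2 ≤ -(p.1.2 q.1 + q.2 p.1.1 - q.2 q.1)}
    (fun p hp p' hp' a b ha hb hab q hq => by
      have h3 := mul_le_mul_of_nonneg_left (hp q hq) ha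
      have h4 := mul_le_mul_of_nonneg_left (hp' q hq) hb
      have h5 : q.2 q.1 = a * q.2 q.1 + b * q.2 q.1 := by rw [← add_mul, hab, one_mul]
      simp only [smul_eq_mul, Prod.fst_add, Prod.snd_add, Prod.smul_fst, Prod.smul_snd,
        ContinuousLinearMap.add_apply, ContinuousLinearMap.smul_apply, map_add, map_smul]
      linarith)
    (by
      obtain ⟨a, ha⟩ := hne
      refine ⟨(a, -a.2 a.1), fun q hq => ?_⟩
      have := hm a ha q hq
      simp only [ContinuousLinearMap.sub_apply, map_sub] at this ⊢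
      linarith)
    (fun p hp => by
      have h1 := hS1 p.1.2 p.1.1
      by_cases h : ∀ q ∈ G, 0 ≤ (p.1.2 - q.2) (p.1.1 - q.1)
      · have := hp _ (hx p.1 h)
        linarith
      · push Not at h
        obtain ⟨q, hq, h⟩ := h
        have := hp q hq
        simp only [ContinuousLinearMap.sub_apply, map_sub] at h
        linarith)
  obtain ⟨y, hy⟩ := hr (-(L.comp (ContinuousLinearMap.inr ℝ _ _)))
  set w : X →L[ℝ] ℝ := -(L.comp (ContinuousLinearMap.inl ℝ _ _)) with hw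
  have hd : ∀ (x : X) (ξ : X →L[ℝ] ℝ), L (x, ξ) = -w x - ξ y := fun x ξ => by
    have : ((x, ξ) : X × (X →L[ℝ] ℝ)) = (x, 0) + (0, ξ) := by simp
    rw [this, map_add, ← hy]; simp [hw]
  obtain ⟨L0, c0, h01, h02⟩ := sand Ψ hc M hM {(y, Ψ y)} (convex_singleton _)
    (singleton_nonempty _) (by simp)
  have h03 := h02 _ rfl
  have h04 : S (-L0) ≤ -c0 := hS2 _ _ fun v => by
    have := h01 v
    simp only [ContinuousLinearMap.neg_apply]; linarith
  have h1 : ∀ x, -w x + c ≤ Ψ x - Ψ y := fun x => by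
    have := hL1 (x, -L0)
    rw [hd] at this
    simp only [ContinuousLinearMap.neg_apply] at this h03
    linarith
  have h2 : ∀ a ∈ G, -a.2 a.1 ≤ -w a.1 - a.2 y + c := fun a ha => by
    have := hL2 (a, -a.2 a.1) fun q hq => by
      have := hm a ha q hq
      simp only [ContinuousLinearMap.sub_apply, map_sub] at this ⊢
      linarith
    rwa [show L a = L (a.1, a.2) from rfl, hd] at this
  have h3 : (y, w) ∈ G := hx _ fun q hq => by
    have := h2 q hq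
    have := h1 y
    simp only [ContinuousLinearMap.sub_apply, map_sub]
    linarith
  refine ⟨_, h3, fun x => ?_⟩
  have := h2 _ h3
  have := h1 x
  simp only [map_sub] at *
  linarith

theorem sep {V : Type*} [NormedAddCommGroup V] [NormedSpace ℝ V] (W : Submodule ℝ V)
    (hW : IsClosed (W : Set V)) (x : V) (h : ∀ φ : V →L[ℝ] ℝ, (∀ v ∈ W, φ v = 0) → φ x = 0) :
    x ∈ W := by
  by_contra hx
  obtain ⟨φ, u, h1, h2⟩ := geometric_hahn_banach_closed_point W.convex hW hx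
  have h3 : ∀ v ∈ W, φ v = 0 := fun v hv =>
    lin0 (φ.comp W.subtypeL) u (fun w => (h1 w w.2).le) ⟨v, hv⟩
  have h4 := h1 0 W.zero_mem
  rw [h φ h3] at h2
  rw [map_zero] at h4
  linarith

theorem lur (X : Type*) [NormedAddCommGroup X] [NormedSpace ℝ X]
    [TopologicalSpace.SeparableSpace X] : ∃ Φ : X → ℝ, ConvexOn ℝ univ Φ ∧ (∀ x, 0 ≤ Φ x) ∧
      (∀ x, Φ x ≤ 4 * (‖x‖ ^ 2 + 1)) ∧ ∀ x ε, 0 < ε → ∃ δ, 0 < δ ∧ ∀ x',
        Φ x + Φ x' - 2 * Φ ((1 / 2 : ℝ) • x + (1 / 2 : ℝ) • x') < δ → ‖x' - x‖ < ε := by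
  haveI : Nonempty X := ⟨0⟩
  obtain ⟨e, he⟩ := TopologicalSpace.exists_dense_seq X
  set w : ℕ → ℝ := fun k => (1 / 2) ^ k / (1 + ‖e k‖ ^ 2) with hw
  have w0 : ∀ k, 0 < w k := fun k => by positivity
  have hb : ∀ x k, w k * ‖x - e k‖ ^ 2 ≤ (1 / 2) ^ k * (2 * (‖x‖ ^ 2 + 1)) := fun x k => by
    rw [hw, div_mul_eq_mul_div, mul_div_assoc]
    refine mul_le_mul_of_nonneg_left ?_ (by positivity)
    rw [div_le_iff₀ (by positivity)]
    have h1 := norm_sub_le x (e k)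
    have h2 : ‖x - e k‖ ^ 2 ≤ (‖x‖ + ‖e k‖) ^ 2 := by gcongr
    nlinarith [sq_nonneg (‖x‖ - ‖e k‖), sq_nonneg (‖x‖ * ‖e k‖)]
  have hs : ∀ x, Summable fun k => w k * ‖x - e k‖ ^ 2 := fun x =>
    Summable.of_nonneg_of_le (fun k => by have := w0 k; positivity) (hb x)
      (summable_geometric_two.mul_right _)
  have hn : ∀ (x x' : X) (a b : ℝ) k, 0 ≤ a → 0 ≤ b → a + b = 1 →
      ‖a • x + b • x' - e k‖ ≤ a * ‖x - e k‖ + b * ‖x' - e k‖ := fun x x' a b k ha hb hab => by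
    have : a • x + b • x' - e k = a • (x - e k) + b • (x' - e k) := by
      rw [smul_sub, smul_sub]
      have : e k = a • e k + b • e k := by rw [← add_smul, hab, one_smul]
      conv_lhs => rw [this]
      abel
    rw [this]
    refine (norm_add_le _ _).trans ?_
    rw [norm_smul, norm_smul, Real.norm_of_nonneg ha, Real.norm_of_nonneg hb]
  refine ⟨fun x => ∑' k, w k * ‖x - e k‖ ^ 2, ⟨convex_univ, fun x _ x' _ a b ha hb hab => ?_⟩,
    fun x => tsum_nonneg fun k => by have := w0 k; positivity, fun x => ?_, fun x ε hε => ?_⟩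
  · simp only [smul_eq_mul]
    rw [← tsum_mul_left, ← tsum_mul_left, ← Summable.tsum_add ((hs x).mul_left a)
      ((hs x').mul_left b)]
    refine Summable.tsum_le_tsum (fun k => ?_) (hs _) (((hs x).mul_left a).add ((hs x').mul_left b))
    have h1 := hn x x' a b k ha hb hab
    have h2 : ‖a • x + b • x' - e k‖ ^ 2 ≤ (a * ‖x - e k‖ + b * ‖x' - e k‖) ^ 2 := by gcongr
    have h3 : (a * ‖x - e k‖ + b * ‖x' - e k‖) ^ 2 ≤ a * ‖x - e k‖ ^ 2 + b * ‖x' - e k‖ ^ 2 := by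
      obtain rfl : b = 1 - a := by linarith
      nlinarith [mul_nonneg (mul_nonneg ha hb) (sq_nonneg (‖x - e k‖ - ‖x' - e k‖))]
    nlinarith [w0 k]
  · refine (Summable.tsum_le_tsum (hb x) (hs x) (summable_geometric_two.mul_right _)).trans ?_
    rw [tsum_mul_right, tsum_geometric_two]; linarith
  · obtain ⟨k, hk⟩ := he.exists_dist_lt x (show 0 < ε / 4 by positivity)
    rw [dist_eq_norm] at hk
    refine ⟨w k * (ε ^ 2 / 8), by have := w0 k; positivity, fun x' hx' => ?_⟩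
    by_contra hc
    push Not at hc
    set m := (1 / 2 : ℝ) • x + (1 / 2 : ℝ) • x'
    have h0 : ∀ j, (‖x - e j‖ - ‖x' - e j‖) ^ 2 / 2 ≤
        ‖x - e j‖ ^ 2 + ‖x' - e j‖ ^ 2 - 2 * ‖m - e j‖ ^ 2 := fun j => by
      have h1 := hn x x' (1 / 2) (1 / 2) j (by norm_num) (by norm_num) (by norm_num)
      have h2 : ‖m - e j‖ ^ 2 ≤ (1 / 2 * ‖x - e j‖ + 1 / 2 * ‖x' - e j‖) ^ 2 := by gcongr
      nlinarith
    have hs2 := ((hs x).add (hs x')).sub ((hs m).mul_left 2)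
    have h1 := hs2.le_tsum k (fun j _ => by
      have := h0 j
      nlinarith [w0 j, sq_nonneg (‖x - e j‖ - ‖x' - e j‖)])
    rw [Summable.tsum_sub ((hs x).add (hs x')) ((hs m).mul_left 2),
      Summable.tsum_add (hs x) (hs x'), tsum_mul_left] at h1
    have h2 : ‖x' - x‖ ≤ ‖x' - e k‖ + ‖x - e k‖ := by
      have := norm_sub_le (x' - e k) (x - e k)
      rwa [sub_sub_sub_cancel_right] at this
    have h3 : ε / 2 ≤ ‖x' - e k‖ - ‖x - e k‖ := by linarith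
    have h4 : (ε / 2) ^ 2 ≤ (‖x' - e k‖ - ‖x - e k‖) ^ 2 := by gcongr
    have h5 := h0 k
    nlinarith [w0 k]

end Pool.Agent.H.MP_438bde_an
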