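import Pool.Agent.H.MP_438bde_an.A

set_option autoImplicit false
open Set Metric Filter Topology
open scoped RealInnerProductSpace

namespace Pool.Agent.H.MP_438bde_an

theorem sqc {V : Type*} [NormedAddCommGroup V] [NormedSpace ℝ V] (p q : V) (a b : ℝ)
    (ha : 0 ≤ a) (hb : 0 ≤ b) (hab : a + b = 1) :
    ‖a • p + b • q‖ ^ 2 ≤ a * ‖p‖ ^ 2 + b * ‖q‖ ^ 2 := by
  have h1 : ‖a • p + b • q‖ ≤ a * ‖p‖ + b * ‖q‖ := by
    refine (norm_add_le _ _).trans ?_
    rw [norm_smul, norm_smul, Real.norm_of_nonneg ha, Real.norm_of_nonneg hb]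
  have h2 : ‖a • p + b • q‖ ^ 2 ≤ (a * ‖p‖ + b * ‖q‖) ^ 2 := by gcongr
  obtain rfl : b = 1 - a := by linarith
  nlinarith [mul_nonneg (mul_nonneg ha hb) (sq_nonneg (‖p‖ - ‖q‖))]

theorem lin1 {A B : ℝ} (h : ∀ t : ℝ, 0 ≤ t * A + t ^ 2 * B) : A = 0 := by
  by_contra hA
  have hB : 0 < |B| + 1 := by positivity
  have h1 := h (-A / (|B| + 1))
  have h2 : -A / (|B| + 1) * A + (-A / (|B| + 1)) ^ 2 * B
      = A ^ 2 / (|B| + 1) ^ 2 * (B - (|B| + 1)) := by field_simp; ring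
  have h3 : 0 < A ^ 2 / (|B| + 1) ^ 2 := by positivity
  rw [h2] at h1
  nlinarith [le_abs_self B]

theorem opn {V : Type*} [NormedAddCommGroup V] [NormedSpace ℝ V] (y : V →L[ℝ] ℝ) (t K : ℝ)
    (ht : 0 < t) (hK : 0 ≤ K) (h : ∀ v, ‖v‖ = t → y v ≤ K * t) : ‖y‖ ≤ K := by
  refine y.opNorm_le_bound hK fun v => ?_
  by_cases hv : v = 0
  · simp [hv]
  have hn : 0 < ‖v‖ := norm_pos_iff.2 hv
  have h1 := h ((t / ‖v‖) • v) (by
    rw [norm_smul, Real.norm_of_nonneg (by positivity), div_mul_cancel₀ _ hn.ne'])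
  have h2 := h (-((t / ‖v‖) • v)) (by
    rw [norm_neg, norm_smul, Real.norm_of_nonneg (by positivity), div_mul_cancel₀ _ hn.ne'])
  rw [map_neg] at h2
  rw [map_smul, smul_eq_mul, div_mul_eq_mul_div] at h1 h2
  rw [div_le_iff₀ hn] at h1
  rw [← neg_div, div_le_iff₀ hn] at h2
  rw [Real.norm_eq_abs, abs_le]
  constructor <;> nlinarith

theorem trip {X : Type*} [NormedAddCommGroup X] [NormedSpace ℝ X]
    [TopologicalSpace.SeparableSpace X]
    (hr : ∀ φ : (X →L[ℝ] ℝ) →L[ℝ] ℝ, ∃ x : X, ∀ f : X →L[ℝ] ℝ, φ f = f x)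
    (G : Set (X × (X →L[ℝ] ℝ))) (hm : ∀ p ∈ G, ∀ q ∈ G, 0 ≤ (p.2 - q.2) (p.1 - q.1))
    (hx : ∀ p : X × (X →L[ℝ] ℝ), (∀ q ∈ G, 0 ≤ (p.2 - q.2) (p.1 - q.1)) → p ∈ G)
    {E : Type*} [NormedAddCommGroup E] [InnerProductSpace ℝ E] [FiniteDimensional ℝ E]
    (L : E →L[ℝ] X) (l μ : ℝ) (hl : 0 < l) (hl1 : l ≤ 1) (hμ : 0 < μ) :
    ∃ (u : E → X) (y : E → X →L[ℝ] ℝ) (a : E → E), (∀ g, (u g, y g) ∈ G) ∧ Continuous u ∧
      Continuous a ∧ (∀ g, ‖y g‖ ≤ 22 * (‖u g - L (a g)‖ / l + 1)) ∧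
      (∀ g, l * (‖u g - L (a g)‖ / l) ^ 2 / 2 - 4 * l ≤ y g (L (a g) - u g)) ∧
      ∀ g b, y g (L b) + μ * ⟪a g, b⟫ = ⟪g, b⟫ := by
  obtain ⟨Φ, hΦc, hΦ0, hΦb, hΦl⟩ := lur X
  have hΦ : Continuous Φ := by
    have : ∃ x₀ ∈ (univ : Set X), (𝓝 x₀).IsBoundedUnder (· ≤ ·) Φ := ⟨0, trivial, 8, by
      rw [eventually_map]
      filter_upwards [ball_mem_nhds (0 : X) one_pos] with x hx
      have h1 : ‖x‖ < 1 := by simpa using hx
      have := hΦb x
      nlinarith [norm_nonneg x]⟩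
    exact continuousOn_univ.1
      (((hΦc.continuousOn_tfae isOpen_univ univ_nonempty).out 3 1).1 this)
  set Θ : E → X → E → ℝ := fun g x b =>
    ‖x - L b‖ ^ 2 / (2 * l) + l * Φ (x - L b) + μ * ‖b‖ ^ 2 / 2 - ⟪g, b⟫ with hΘ
  have hlow : ∀ g x b, ‖x - L b‖ ^ 2 / (2 * l) + μ * ‖b‖ ^ 2 / 2 - ‖g‖ * ‖b‖ ≤ Θ g x b :=
    fun g x b => by
      have := real_inner_le_norm g b
      have := mul_nonneg hl.le (hΦ0 (x - L b))
      simp only [hΘ]; linarith
  have hex : ∀ g, ∃ (p : X × (X →L[ℝ] ℝ)) (a : E), p ∈ G ∧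
      ∀ x b, Θ g p.1 a - p.2 (x - p.1) ≤ Θ g x b := fun g => by
    have h1 : ∀ x, ∃ a, ∀ b, Θ g x a ≤ Θ g x b := fun x => by
      refine Continuous.exists_forall_le_of_isBounded (by simp only [hΘ]; fun_prop) 0 ?_
      refine (isBounded_closedBall (x := (0 : E))
        (r := 2 * (‖g‖ + |Θ g x 0|) / μ + 1)).subset fun b hb => ?_
      rw [mem_closedBall_zero_iff]
      by_contra hc
      push Not at hc
      have h2 := hlow g x b
      have h3 : Θ g x b ≤ Θ g x 0 := hb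
      have h4 : 0 ≤ ‖x - L b‖ ^ 2 / (2 * l) := by positivity
      have h5 : 0 ≤ 2 * (‖g‖ + |Θ g x 0|) / μ := by positivity
      have h6 : 2 * (‖g‖ + |Θ g x 0|) < μ * ‖b‖ := by
        rw [mul_comm μ, ← div_lt_iff₀ hμ]; linarith
      nlinarith [le_abs_self (Θ g x 0), abs_nonneg (Θ g x 0), norm_nonneg g]
    choose m hm1 using h1
    obtain ⟨p, hp, h2⟩ := res hr G hm hx (fun x => Θ g x (m x))
      ⟨convex_univ, fun x _ x' _ a b ha hb hab => by
        refine (hm1 _ (a • m x + b • m x')).trans ?_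
        have e : a • x + b • x' - L (a • m x + b • m x')
            = a • (x - L (m x)) + b • (x' - L (m x')) := by
          rw [map_add, map_smul, map_smul, smul_sub, smul_sub]; abel
        have h1 := sqc (x - L (m x)) (x' - L (m x')) a b ha hb hab
        have h2 := sqc (m x) (m x') a b ha hb hab
        have h3 := hΦc.2 (mem_univ (x - L (m x))) (mem_univ (x' - L (m x'))) ha hb hab
        simp only [hΘ, e, smul_eq_mul, inner_add_right, inner_smul_right] at h3 ⊢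
        have h4 := div_le_div_of_nonneg_right h1 (show 0 ≤ 2 * l by positivity)
        rw [add_div, mul_div_assoc, mul_div_assoc] at h4
        nlinarith [mul_le_mul_of_nonneg_left h2 hμ.le, mul_le_mul_of_nonneg_left h3 hl.le]⟩
      (1 / (2 * l) + l * 8) (fun x hx => by
        refine (hm1 x 0).trans ?_
        have h1 : ‖x‖ ^ 2 ≤ 1 := by nlinarith [norm_nonneg x]
        have h2 := div_le_div_of_nonneg_right h1 (show 0 ≤ 2 * l by positivity)
        have h3 := hΦb x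
        simp only [hΘ, map_zero, sub_zero, norm_zero, inner_zero_right]
        nlinarith)
      (fun ρ => ⟨l * ρ ^ 2 / 2 + (|ρ| * ‖L‖ + ‖g‖) ^ 2 / (2 * μ), fun v => by
        have h1 := hlow g v (m v)
        have h2 : ‖v‖ ≤ ‖v - L (m v)‖ + ‖L‖ * ‖m v‖ := by
          have := norm_add_le (v - L (m v)) (L (m v))
          rw [sub_add_cancel] at this
          linarith [L.le_opNorm (m v)]
        have h3 : ρ * ‖v‖ ≤ |ρ| * (‖v - L (m v)‖ + ‖L‖ * ‖m v‖) :=
          (mul_le_mul_of_nonneg_right (le_abs_self ρ) (norm_nonneg _)).trans (by gcongr)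
        have h4 : ∀ s t c : ℝ, 0 < c → s * t ≤ s ^ 2 / (2 * c) + c * t ^ 2 / 2 := fun s t c hc => by
          have : s ^ 2 / (2 * c) + c * t ^ 2 / 2 - s * t = (s - c * t) ^ 2 / (2 * c) := by
            field_simp; ring
          have : 0 ≤ (s - c * t) ^ 2 / (2 * c) := by positivity
          linarith
        have h5 := h4 ‖v - L (m v)‖ |ρ| l hl
        have h6 := h4 (|ρ| * ‖L‖ + ‖g‖) ‖m v‖ μ hμ
        rw [sq_abs] at h5
        linarith⟩)
    exact ⟨p, m p.1, hp, fun x b => (h2 x).trans (hm1 x b)⟩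
  choose p a hp hs using hex
  have hcmp : ∀ g g', l * (Φ ((p g).1 - L (a g)) + Φ ((p g').1 - L (a g'))
      - 2 * Φ ((1 / 2 : ℝ) • ((p g).1 - L (a g)) + (1 / 2 : ℝ) • ((p g').1 - L (a g'))))
      + μ / 4 * ‖a g - a g'‖ ^ 2 ≤ ‖g - g'‖ * ‖a g - a g'‖ / 2 := fun g g' => by
    have h1 := hs g ((1 / 2 : ℝ) • (p g).1 + (1 / 2 : ℝ) • (p g').1)
      ((1 / 2 : ℝ) • a g + (1 / 2 : ℝ) • a g')
    have h2 := hs g' ((1 / 2 : ℝ) • (p g).1 + (1 / 2 : ℝ) • (p g').1)
      ((1 / 2 : ℝ) • a g + (1 / 2 : ℝ) • a g')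
    have e : (1 / 2 : ℝ) • (p g).1 + (1 / 2 : ℝ) • (p g').1 - L ((1 / 2 : ℝ) • a g + (1 / 2 : ℝ) • a g')
        = (1 / 2 : ℝ) • ((p g).1 - L (a g)) + (1 / 2 : ℝ) • ((p g').1 - L (a g')) := by
      rw [map_add, map_smul, map_smul, smul_sub, smul_sub]; abel
    have h3 := sqc ((p g).1 - L (a g)) ((p g').1 - L (a g')) (1 / 2) (1 / 2) (by norm_num)
      (by norm_num) (by norm_num)
    have h4 := div_le_div_of_nonneg_right h3 (show 0 ≤ 2 * l by positivity)
    rw [add_div, mul_div_assoc, mul_div_assoc] at h4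
    have h5 : ‖(1 / 2 : ℝ) • a g + (1 / 2 : ℝ) • a g'‖ ^ 2
        = ‖a g‖ ^ 2 / 2 + ‖a g'‖ ^ 2 / 2 - ‖a g - a g'‖ ^ 2 / 4 := by
      rw [← smul_add, norm_smul, mul_pow, norm_add_sq_real, norm_sub_sq_real]; norm_num; ring
    have h6 := hm _ (hp g) _ (hp g')
    have h7 := real_inner_le_norm (g - g') (a g - a g')
    simp only [hΘ, e, h5] at h1 h2
    simp only [inner_add_right, inner_smul_right, inner_sub_left, inner_sub_right, map_sub, map_add,
      map_smul, smul_eq_mul, ContinuousLinearMap.sub_apply] at h1 h2 h6 h7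
    nlinarith
  have hdef : ∀ d d' : X, 0 ≤ Φ d + Φ d' - 2 * Φ ((1 / 2 : ℝ) • d + (1 / 2 : ℝ) • d') :=
    fun d d' => by
      have := hΦc.2 (mem_univ d) (mem_univ d') (show (0 : ℝ) ≤ 1 / 2 by norm_num)
        (show (0 : ℝ) ≤ 1 / 2 by norm_num) (by norm_num)
      simp only [smul_eq_mul] at this; linarith
  have hlip : ∀ g g', ‖a g - a g'‖ ≤ 2 / μ * ‖g - g'‖ := fun g g' => by
    have h1 := hcmp g g'
    have h2 := mul_nonneg hl.le (hdef ((p g).1 - L (a g)) ((p g').1 - L (a g')))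
    rw [div_mul_eq_mul_div, le_div_iff₀ hμ]
    rcases (norm_nonneg (a g - a g')).eq_or_lt with h | h
    · rw [← h, zero_mul]; positivity
    · nlinarith
  have hac : Continuous a := (LipschitzWith.of_dist_le' (K := 2 / μ) fun g g' => by
    rw [dist_eq_norm, dist_eq_norm]; exact hlip g g').continuous
  have hdc : Continuous fun g => (p g).1 - L (a g) := by
    refine continuous_iff_continuousAt.2 fun g => Metric.tendsto_nhds.2 fun ε hε => ?_
    obtain ⟨δ, hδ, h1⟩ := hΦl ((p g).1 - L (a g)) ε hε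
    have h2 : Tendsto (fun g' => ‖g - g'‖ * ‖a g - a g'‖ / 2) (𝓝 g) (𝓝 0) := by
      have : Continuous fun g' => ‖g - g'‖ * ‖a g - a g'‖ / 2 := by fun_prop
      simpa using this.tendsto g
    filter_upwards [h2.eventually (gt_mem_nhds (mul_pos hl hδ))] with g' hg'
    rw [dist_eq_norm]
    refine h1 _ (lt_of_mul_lt_mul_left ?_ hl.le)
    have := hcmp g g'
    have : 0 ≤ μ / 4 * ‖a g - a g'‖ ^ 2 := by positivity
    linarith
  refine ⟨fun g => (p g).1, fun g => (p g).2, a, hp, ?_, hac, fun g => ?_, fun g => ?_,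
    fun g b => ?_⟩
  · have : Continuous fun g => (p g).1 - L (a g) + L (a g) := by fun_prop
    simpa using this
  · set D := ‖(p g).1 - L (a g)‖ with hD
    have D0 : 0 ≤ D := norm_nonneg _
    refine opn _ (D + l) _ (by positivity) (by positivity) fun v hv => ?_
    have h1 := hs g ((p g).1 - v) (a g)
    have e : (p g).1 - v - L (a g) = (p g).1 - L (a g) - v := by abel
    have h2 : ‖(p g).1 - L (a g) - v‖ ≤ 2 * (D + l) := by
      linarith [norm_sub_le ((p g).1 - L (a g)) v]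
    have h3 : ‖(p g).1 - L (a g) - v‖ ^ 2 ≤ (2 * (D + l)) ^ 2 := by gcongr
    have h4 := div_le_div_of_nonneg_right h3 (show 0 ≤ 2 * l by positivity)
    have h5 := mul_le_mul_of_nonneg_left (hΦb ((p g).1 - L (a g) - v)) hl.le
    have h6 := mul_nonneg hl.le (hΦ0 ((p g).1 - L (a g)))
    have h7 : 0 ≤ D ^ 2 / (2 * l) := by positivity
    simp only [hΘ, e, sub_sub_cancel_left, map_neg, ← hD] at h1
    obtain ⟨s, hs⟩ : ∃ s, s = D / l := ⟨_, rfl⟩
    have s0 : 0 ≤ s := by rw [hs]; positivity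
    have hD' : D = s * l := by rw [hs]; field_simp
    have h8 : (2 * (D + l)) ^ 2 / (2 * l) = 2 * (s + 1) * (D + l) := by
      rw [hD']; field_simp
    have h9 : l * (D + l) ≤ s + 1 := by
      rw [hD']
      have : l * l ≤ 1 := by nlinarith
      nlinarith
    have h10 : l * (2 * (D + l)) ^ 2 ≤ 4 * (s + 1) * (D + l) := by
      have := mul_le_mul_of_nonneg_right h9 (show 0 ≤ D + l by positivity)
      nlinarith
    have h11 : l ≤ (s + 1) * (D + l) := by nlinarith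
    have h12 := mul_le_mul_of_nonneg_left h3 hl.le
    rw [← hs]
    nlinarith
  · have h1 := hs g (L (a g)) (a g)
    have h2 := mul_le_mul_of_nonneg_left (hΦb 0) hl.le
    have h6 := mul_nonneg hl.le (hΦ0 ((p g).1 - L (a g)))
    simp only [hΘ, sub_self, norm_zero] at h1 h2
    have e : l * (‖(p g).1 - L (a g)‖ / l) ^ 2 / 2 = ‖(p g).1 - L (a g)‖ ^ 2 / (2 * l) := by
      field_simp
    rw [e]
    norm_num at h1 h2 ⊢
    linarith
  · have := lin1 (A := (p g).2 (L b) + μ * ⟪a g, b⟫ - ⟪g, b⟫) (B := μ * ‖b‖ ^ 2 / 2) fun t => by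
      have h1 := hs g ((p g).1 + L (t • b)) (a g + t • b)
      have e : (p g).1 + L (t • b) - L (a g + t • b) = (p g).1 - L (a g) := by
        rw [map_add]; abel
      simp only [hΘ, e, add_sub_cancel_left, norm_add_sq_real, inner_add_right, inner_smul_right,
        norm_smul, mul_pow, Real.norm_eq_abs, sq_abs] at h1
      simp only [map_smul, smul_eq_mul] at h1
      nlinarith
    linarith

end Pool.Agent.H.MP_438bde_an
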