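import Pool.Agent.H.MP_438bde_an.B

set_option autoImplicit false
open Set Metric Filter Topology
open scoped RealInnerProductSpace

namespace Pool.Agent.H.MP_438bde_an

theorem low {X : Type*} [NormedAddCommGroup X] [NormedSpace ℝ X] (y : X →L[ℝ] ℝ) (x : X) :
    -(‖y‖ * ‖x‖) ≤ y x ∧ y x ≤ ‖y‖ * ‖x‖ := by
  have := y.le_opNorm x
  rwa [Real.norm_eq_abs, abs_le] at this

theorem est {X : Type*} [NormedAddCommGroup X] [NormedSpace ℝ X] (u z u0 : X)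
    (y y0 : X →L[ℝ] ℝ) (l s : ℝ) (hl : 0 < l) (hl1 : l ≤ 1) (hs : ‖u - z‖ = l * s)
    (h1 : ‖y‖ ≤ 22 * (s + 1)) (h2 : l * s ^ 2 / 2 - 4 * l ≤ y (z - u))
    (h3 : 0 ≤ (y - y0) (u - u0)) :
    l * s ≤ 4 * (22 + ‖y0‖) * (‖z‖ + ‖u0‖ + 1) ∧
      l * s ^ 2 / 2 - 4 - ‖y0‖ * ‖u - u0‖ - 22 * (s + 1) * ‖u0‖ ≤ y z := by
  have s0 : 0 ≤ s := by
    have := norm_nonneg (u - z)
    rw [hs] at this
    exact nonneg_of_mul_nonneg_right this hl |> fun h => by nlinarith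
  have h4 : l * s ^ 2 / 2 - 4 * l - ‖y0‖ * ‖u - u0‖ ≤ y (z - u0) := by
    have := (low y0 (u - u0)).1
    simp only [ContinuousLinearMap.sub_apply, map_sub] at *
    linarith
  constructor
  · set ρ := ‖z - u0‖ with hρ
    have ρ0 : 0 ≤ ρ := norm_nonneg _
    have Y0 := norm_nonneg y0
    have h5 : y (z - u0) ≤ 22 * (s + 1) * ρ := (low y _).2.trans (by gcongr)
    have h6 : ‖u - u0‖ ≤ l * s + ρ := by
      have := norm_add_le (u - z) (z - u0)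
      rwa [sub_add_sub_cancel, hs] at this
    have h7 : ρ ≤ ‖z‖ + ‖u0‖ := norm_sub_le _ _
    refine le_trans ?_ (mul_le_mul_of_nonneg_left (show ρ + 1 ≤ _ by linarith) (by positivity))
    by_contra hc
    push Not at hc
    obtain ⟨D, hD⟩ : ∃ D, D = l * s := ⟨_, rfl⟩
    have h8 : l * s ^ 2 / 2 ≤ 22 * (s + 1) * ρ + 4 * l + ‖y0‖ * (D + ρ) := by
      have := mul_le_mul_of_nonneg_left h6 Y0
      rw [hD]; linarith
    have h9 := mul_le_mul_of_nonneg_left h8 hl.le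
    have D0 : 0 ≤ D := by rw [hD]; positivity
    have e1 : l * (l * s ^ 2 / 2) = D ^ 2 / 2 := by rw [hD]; ring
    have e2 : l * (22 * (s + 1) * ρ + 4 * l + ‖y0‖ * (D + ρ))
        = 22 * D * ρ + l * (22 * ρ) + 4 * (l * l) + l * (‖y0‖ * (D + ρ)) := by rw [hD]; ring
    have h10 : l * (22 * ρ) ≤ 22 * ρ := by nlinarith
    have h11 : l * l ≤ 1 := by nlinarith
    have h12 : l * (‖y0‖ * (D + ρ)) ≤ ‖y0‖ * (D + ρ) :=
      mul_le_of_le_one_left (by positivity) hl1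
    rw [← hD] at hc
    have h13 : 1 ≤ D := by nlinarith
    have h14 : (22 + ‖y0‖) * (ρ + 1) ≤ D * ((22 + ‖y0‖) * (ρ + 1)) :=
      le_mul_of_one_le_left (by positivity) h13
    have h15 := mul_lt_mul_of_pos_left hc (show 0 < D by linarith)
    nlinarith [mul_nonneg D0 (mul_nonneg Y0 ρ0)]
  · have h5 : -(22 * (s + 1) * ‖u0‖) ≤ y u0 := by
      refine le_trans ?_ (low y _).1
      have := mul_le_mul_of_nonneg_right h1 (norm_nonneg u0)
      linarith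
    rw [map_sub] at h4
    linarith

theorem gal {X : Type*} [NormedAddCommGroup X] [NormedSpace ℝ X]
    [TopologicalSpace.SeparableSpace X]
    (hr : ∀ φ : (X →L[ℝ] ℝ) →L[ℝ] ℝ, ∃ x : X, ∀ f : X →L[ℝ] ℝ, φ f = f x)
    (G : Set (X × (X →L[ℝ] ℝ))) (hm : ∀ p ∈ G, ∀ q ∈ G, 0 ≤ (p.2 - q.2) (p.1 - q.1))
    (hx : ∀ p : X × (X →L[ℝ] ℝ), (∀ q ∈ G, 0 ≤ (p.2 - q.2) (p.1 - q.1)) → p ∈ G)
    (B : X → X →L[ℝ] ℝ) (hB : ∀ R : ℝ, ∃ M : ℝ, ∀ x, ‖x‖ ≤ R → ‖B x‖ ≤ M)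
    (hps : ∀ (u : ℕ → X) (v : X) (y : ℕ → X →L[ℝ] ℝ), Tendsto u atTop (𝓝 v) →
      (∀ j, (u j, y j) ∈ G) → (∃ C : ℝ, ∀ j, ‖y j‖ ≤ C) →
      ∀ x, Tendsto (fun j => B (u j) x) atTop (𝓝 (B v x)))
    (R1 : ℝ) (hco : ∀ p ∈ G, R1 ≤ ‖p.1‖ → ‖p.1‖ ≤ (p.2 + B p.1) p.1) :
    ∃ R C l0 : ℝ, 0 < l0 ∧ 0 ≤ C ∧ ∀ l, 0 < l → l ≤ l0 → ∃ K : ℝ, ∀ F : Submodule ℝ X,
      FiniteDimensional ℝ F → ∃ p ∈ G, ∃ s : ℝ, 0 ≤ s ∧ s ≤ K ∧ ‖p.1‖ ≤ R ∧
        ‖p.2‖ ≤ 22 * (s + 1) ∧ (∀ x ∈ F, (p.2 + B p.1) x = 0) ∧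
        (p.2 + B p.1) p.1 ≤ -(l * s ^ 2 / 2) + 4 * l + C * (l * s) := by
  obtain ⟨⟨u0, y0⟩, h0⟩ : G.Nonempty := by
    by_contra h
    exact h ⟨0, hx 0 fun q hq => (h ⟨q, hq⟩).elim⟩
  obtain ⟨K1, hK1⟩ : ∃ K1, K1 = 4 * (22 + ‖y0‖) := ⟨_, rfl⟩
  have K0 : 0 ≤ K1 := by rw [hK1]; positivity
  have U0 := norm_nonneg u0
  have Y0 := norm_nonneg y0
  obtain ⟨R, hR1, hR2⟩ : ∃ R, R1 ≤ R ∧ 1 + K1 * (‖u0‖ + 2) ≤ R :=
    ⟨_, le_max_left _ _, le_max_right _ _⟩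
  have R0 : 1 ≤ R := by nlinarith
  obtain ⟨C, hC⟩ := hB (R + 1)
  have C0 : 0 ≤ C := (norm_nonneg _).trans (hC 0 (by rw [norm_zero]; linarith))
  refine ⟨R, C, 1 / (5 + C ^ 2), by positivity, C0, fun l hl hl0 => ?_⟩
  rw [le_div_iff₀ (by positivity)] at hl0
  have hl1 : l ≤ 1 := by nlinarith [sq_nonneg C]
  obtain ⟨A', hA'⟩ : ∃ A', A' = 4 + ‖y0‖ * (R + 1 + ‖u0‖) + 22 * ‖u0‖ + C * (R + 1) := ⟨_, rfl⟩
  have A0 : 0 ≤ A' := by rw [hA']; positivity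
  obtain ⟨K, hK⟩ : ∃ K, K = 2 * (A' + 22 * ‖u0‖ + C) / l + 1 := ⟨_, rfl⟩
  refine ⟨K, fun F hF => ?_⟩
  let T := toEuclidean (E := F)
  let L : EuclideanSpace ℝ (Fin (Module.finrank ℝ F)) →L[ℝ] X :=
    F.subtypeL.comp T.symm.toContinuousLinearMap
  obtain ⟨σ, σ0, hσ⟩ : ∃ σ : ℝ, 0 ≤ σ ∧ ∀ a, ‖a‖ ≤ σ * ‖L a‖ :=
    ⟨‖T.toContinuousLinearMap‖, ContinuousLinearMap.opNorm_nonneg _, fun a => by
      have := T.toContinuousLinearMap.le_opNorm (T.symm a)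
      simpa [L] using this⟩
  have hLF : ∀ x ∈ F, ∃ b, L b = x := fun x hx => ⟨T ⟨x, hx⟩, by simp [L]⟩
  clear_value L
  obtain ⟨A, hA⟩ : ∃ A, A = (22 * ‖u0‖) ^ 2 / (2 * l) + 4 + 22 * ‖u0‖
    + ‖y0‖ * ((K1 + 1) * (‖u0‖ + 2)) := ⟨_, rfl⟩
  have A1 : 0 ≤ A := by rw [hA]; positivity
  obtain ⟨μ, hμ⟩ : ∃ μ, μ = (A + 1) * (‖L‖ ^ 2 + 1) := ⟨_, rfl⟩
  have μ0 : 0 < μ := by rw [hμ]; positivity
  obtain ⟨u, y, a, hG, huc, hac, hy1, hy2, hy3⟩ := trip hr G hm hx L l μ hl hl1 μ0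
  have hBc : ∀ x, Continuous fun g => B (u g) x := fun x => by
    refine continuous_iff_seqContinuous.2 fun gs g hg => ?_
    have : Continuous fun g => 22 * (‖u g - L (a g)‖ / l + 1) := by fun_prop
    obtain ⟨M, hM⟩ := ((this.tendsto g).comp hg).bddAbove_range
    exact hps (fun j => u (gs j)) (u g) (fun j => y (gs j)) ((huc.tendsto g).comp hg)
      (fun j => hG _) ⟨M, fun j => (hy1 _).trans (hM ⟨j, rfl⟩)⟩ x
  let e := EuclideanSpace.basisFun (Fin (Module.finrank ℝ F)) ℝ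
  obtain ⟨ρ, hρ⟩ : ∃ ρ, ρ = σ * (R + 1 + K) + 1 := ⟨_, rfl⟩
  have K2 : 1 ≤ K := by
    have : 0 ≤ 2 * (A' + 22 * ‖u0‖ + C) / l := by positivity
    linarith
  have ρ0 : 0 < ρ := by rw [hρ]; positivity
  obtain ⟨θ, hθ⟩ : ∃ θ : _ → ℝ, θ = fun g => max 0 (min 1 (R + 1 - ‖u g‖)) *
    max 0 (min 1 (ρ + 1 - ‖a g‖)) := ⟨_, rfl⟩
  have θ0 : ∀ g, 0 ≤ θ g := fun g => by rw [hθ]; positivity
  have θ1 : ∀ g, θ g ≤ 1 := fun g => by
    rw [hθ]
    exact mul_le_one₀ (max_le zero_le_one (min_le_left _ _)) (le_max_left _ _)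
      (max_le zero_le_one (min_le_left _ _))
  have θ2 : ∀ g, θ g ≠ 0 → ‖u g‖ ≤ R + 1 ∧ ‖a g‖ ≤ ρ + 1 := fun g hg => by
    rw [hθ] at hg
    constructor <;> by_contra hc <;> apply hg
    · exact mul_eq_zero_of_left (max_eq_left (min_le_of_right_le (by linarith [not_le.1 hc]))) _
    · exact mul_eq_zero_of_right _ (max_eq_left (min_le_of_right_le (by linarith [not_le.1 hc])))
  obtain ⟨g, hg⟩ := brouwer (fun g => θ g • (μ • a g - ∑ i, B (u g) (L (e i)) • e i))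
    ((show Continuous θ by rw [hθ]; fun_prop).smul ((hac.const_smul μ).sub
      (continuous_finsetSum _ fun i _ => (hBc _).smul continuous_const))) (μ * (ρ + 1) + ∑ i, C * ‖L (e i)‖) (by positivity) (fun g => by
      by_cases h : θ g = 0
      · rw [h, zero_smul, norm_zero]; positivity
      obtain ⟨h1, h2⟩ := θ2 g h
      rw [norm_smul, Real.norm_of_nonneg (θ0 g)]
      refine (mul_le_of_le_one_left (norm_nonneg _) (θ1 g)).trans ((norm_sub_le _ _).trans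
        (add_le_add ?_ ((norm_sum_le _ _).trans (Finset.sum_le_sum fun i _ => ?_))))
      · rw [norm_smul, Real.norm_of_nonneg μ0.le]; gcongr
      · rw [norm_smul, e.orthonormal.1 i, mul_one]
        exact (B (u g)).le_of_opNorm_le (hC _ h1) _)
  have hfp : ∀ b, y g (L b) + μ * ⟪a g, b⟫ = θ g * (μ * ⟪a g, b⟫ - B (u g) (L b)) := fun b => by
    rw [hy3]
    conv_lhs => rw [← hg]
    rw [real_inner_smul_left, inner_sub_left, real_inner_smul_left, sum_inner]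
    congr 2
    conv_rhs => rw [← e.sum_repr' b]
    simp only [map_sum, map_smul, real_inner_smul_left, smul_eq_mul, mul_comm]
  obtain ⟨s, hs⟩ : ∃ s, s = ‖u g - L (a g)‖ / l := ⟨_, rfl⟩
  have s0 : 0 ≤ s := by rw [hs]; positivity
  have hs' : ‖u g - L (a g)‖ = l * s := by rw [hs]; field_simp
  have h1 := hy1 g
  have h2 := hy2 g
  rw [← hs] at h1 h2
  obtain ⟨h3, h4⟩ := est (u g) (L (a g)) u0 (y g) y0 l s hl hl1 hs' h1 h2 (hm _ (hG g) _ h0)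
  rw [← hK1] at h3
  have h5 := hfp (a g)
  rw [real_inner_self_eq_norm_sq] at h5
  have hz : ‖u g‖ ≤ ‖L (a g)‖ + l * s ∧ ‖L (a g)‖ ≤ ‖u g‖ + l * s := by
    have := abs_norm_sub_norm_le (u g) (L (a g))
    rw [hs', abs_le] at this
    constructor <;> linarith
  have hBz : ‖u g‖ ≤ R + 1 → -(C * (l * s)) ≤ B (u g) (L (a g) - u g) := fun h => by
    refine le_trans ?_ (low _ _).1
    rw [norm_sub_rev, hs']
    have := mul_le_mul_of_nonneg_right (hC _ h) (show 0 ≤ l * s by positivity)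
    linarith
  have hu : ‖u g‖ < R := by
    by_contra hc
    push Not at hc
    have z1 : 1 ≤ ‖L (a g)‖ := by
      by_contra hd
      push Not at hd
      have := mul_le_mul_of_nonneg_left (show ‖L (a g)‖ + ‖u0‖ + 1 ≤ ‖u0‖ + 2 by linarith) K0
      linarith
    have i1 : 0 < y g (L (a g)) + μ * ‖a g‖ ^ 2 := by
      have j1 : ‖u g - u0‖ ≤ (K1 + 1) * (‖u0‖ + 2) * ‖L (a g)‖ := by
        have := norm_sub_le (u g) u0
        have j : ‖L (a g)‖ + ‖u0‖ + 1 ≤ (‖u0‖ + 2) * ‖L (a g)‖ := by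
          linarith [mul_le_mul_of_nonneg_left z1 U0]
        have := mul_le_mul_of_nonneg_left j (show 0 ≤ K1 + 1 by positivity)
        linarith [hz.1]
      have j2 : -((22 * ‖u0‖) ^ 2 / (2 * l)) ≤ l * s ^ 2 / 2 - 22 * s * ‖u0‖ := by
        have : l * s ^ 2 / 2 - 22 * s * ‖u0‖ + (22 * ‖u0‖) ^ 2 / (2 * l)
          = (l * s - 22 * ‖u0‖) ^ 2 / (2 * l) := by field_simp; ring
        have : 0 ≤ (l * s - 22 * ‖u0‖) ^ 2 / (2 * l) := by positivity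
        linarith
      have j3 := mul_le_mul_of_nonneg_left j1 Y0
      have j4 : (22 * ‖u0‖) ^ 2 / (2 * l) + 4 + 22 * ‖u0‖
          ≤ ((22 * ‖u0‖) ^ 2 / (2 * l) + 4 + 22 * ‖u0‖) * ‖L (a g)‖ :=
        le_mul_of_one_le_right (by positivity) z1
      have j5 : -(A * ‖L (a g)‖) ≤ y g (L (a g)) := by rw [hA]; linarith
      have j6 : ‖L (a g)‖ ^ 2 ≤ (‖L‖ * ‖a g‖) ^ 2 := by gcongr; exact L.le_opNorm _
      have j7 : (A + 1) * ‖L (a g)‖ ^ 2 ≤ μ * ‖a g‖ ^ 2 := by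
        rw [hμ, mul_assoc]
        refine mul_le_mul_of_nonneg_left ?_ (by positivity)
        linarith [sq_nonneg ‖a g‖]
      have j9 : ‖L (a g)‖ ≤ ‖L (a g)‖ ^ 2 := by
        linarith [mul_le_mul_of_nonneg_left z1 (norm_nonneg (L (a g)))]
      have j8 := mul_le_mul_of_nonneg_left j9 A1
      linarith
    by_cases h : θ g = 0
    · rw [h] at h5; linarith
    have i2 : 0 < y g (L (a g)) + B (u g) (L (a g)) := by
      have j1 := hco _ (hG g) (hR1.trans hc)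
      have j2 := hBz (θ2 g h).1
      simp only [ContinuousLinearMap.add_apply, map_sub] at j1 j2 h2
      linarith [mul_nonneg hl.le (sq_nonneg (s - C)), mul_nonneg hl.le (sq_nonneg C)]
    have := mul_pos (lt_of_le_of_ne (θ0 g) (Ne.symm h)) i2
    have := mul_nonneg (sub_nonneg.2 (θ1 g)) i1.le
    linarith
  have ls : l * s ≤ s := mul_le_of_le_one_left s0 hl1
  have hsK : s ≤ K := by
    by_contra hc
    push Not at hc
    have j1 : 2 * (A' + 22 * ‖u0‖ + C) < l * s := by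
      rw [mul_comm l, ← div_lt_iff₀ hl]; linarith
    have j2 := mul_lt_mul_of_pos_right j1 (show 0 < s by linarith)
    have j3 : A' ≤ A' * s := le_mul_of_one_le_right A0 (by linarith)
    have j4 : ‖u g - u0‖ ≤ R + 1 + ‖u0‖ := by linarith [norm_sub_le (u g) u0]
    have j5 := mul_le_mul_of_nonneg_left j4 Y0
    have j6 : ‖L (a g)‖ ≤ R + 1 + s := by linarith [hz.2]
    have j7 : -(C * (R + 1 + s)) ≤ B (u g) (L (a g)) := by
      refine le_trans ?_ (low _ _).1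
      have := mul_le_mul (hC (u g) (by linarith)) j6 (norm_nonneg _) C0
      linarith
    have j8 : C * (R + 1 + s) < y g (L (a g)) := by linarith
    have j9 := mul_nonneg (sub_nonneg.2 (θ1 g)) (show 0 ≤ μ * ‖a g‖ ^ 2 by positivity)
    have j10 := mul_le_mul_of_nonneg_left j7 (θ0 g)
    have j11 := mul_le_of_le_one_left (show 0 ≤ C * (R + 1 + s) by positivity) (θ1 g)
    linarith
  have ha : ‖a g‖ ≤ ρ := by
    have j6 : ‖L (a g)‖ ≤ R + 1 + K := by linarith [hz.2]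
    have := mul_le_mul_of_nonneg_left j6 σ0
    linarith [hσ (a g)]
  have hθ1 : θ g = 1 := by
    rw [hθ]
    simp only
    rw [min_eq_left (by linarith), min_eq_left (by linarith)]; norm_num
  have hfin : ∀ b, (y g + B (u g)) (L b) = 0 := fun b => by
    have := hfp b
    rw [hθ1] at this
    rw [ContinuousLinearMap.add_apply]; linarith
  refine ⟨_, hG g, s, s0, hsK, hu.le, h1, fun x hx => ?_, ?_⟩
  · obtain ⟨b, rfl⟩ := hLF x hx
    exact hfin b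
  · have j1 := hfin (a g)
    have j2 := hBz (by linarith)
    simp only [ContinuousLinearMap.add_apply, map_sub] at j1 j2 h2 ⊢
    linarith

end Pool.Agent.H.MP_438bde_an
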