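import Pool.Agent.H.MP_438bde_an.C

set_option autoImplicit false
open Set Metric Filter Topology

namespace Pool.Agent.H.MP_438bde_an

theorem wseq {V : Type*} [NormedAddCommGroup V] [NormedSpace ℝ V]
    [TopologicalSpace.SeparableSpace V] (y : ℕ → V →L[ℝ] ℝ) (K : ℝ) (h : ∀ n, ‖y n‖ ≤ K) :
    ∃ (w : V →L[ℝ] ℝ) (φ : ℕ → ℕ), StrictMono φ ∧
      ∀ x, Tendsto (fun n => y (φ n) x) atTop (𝓝 (w x)) := by
  obtain ⟨w, -, φ, h1, h2⟩ := WeakDual.isSeqCompact_closedBall ℝ V 0 K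
    (x := fun n => StrongDual.toWeakDual (y n)) (fun n => by simpa using h n)
  exact ⟨WeakDual.toStrongDual w, φ, h1, fun x => ((WeakDual.eval_continuous x).tendsto w).comp h2⟩

theorem small {X : Type*} [NormedAddCommGroup X] [NormedSpace ℝ X]
    (B : X → X →L[ℝ] ℝ) (hB : ∀ R : ℝ, ∃ M : ℝ, ∀ x, ‖x‖ ≤ R → ‖B x‖ ≤ M) (u : ℕ → X) (v : X)
    (h : Tendsto u atTop (𝓝 v)) (ε : ℝ) (hε : 0 < ε) : ∀ᶠ j in atTop, B (u j) (u j - v) ≤ ε := by
  obtain ⟨M, hM⟩ := hB (‖v‖ + 1)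
  have h1 : Tendsto (fun j => M * ‖u j - v‖) atTop (𝓝 0) := by
    simpa using (tendsto_iff_norm_sub_tendsto_zero.1 h).const_mul M
  filter_upwards [h1.eventually (gt_mem_nhds hε),
    h.norm.eventually (gt_mem_nhds (lt_add_one ‖v‖))] with j h2 h3
  have := (low (B (u j)) (u j - v)).2
  have := mul_le_mul_of_nonneg_right (hM _ h3.le) (norm_nonneg (u j - v))
  linarith

theorem sepm {X : Type*} [NormedAddCommGroup X] [NormedSpace ℝ X]
    [TopologicalSpace.SeparableSpace X] [TopologicalSpace.SeparableSpace (X →L[ℝ] ℝ)]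
    (hr : ∀ φ : (X →L[ℝ] ℝ) →L[ℝ] ℝ, ∃ x : X, ∀ f : X →L[ℝ] ℝ, φ f = f x)
    (G : Set (X × (X →L[ℝ] ℝ))) (hm : ∀ p ∈ G, ∀ q ∈ G, 0 ≤ (p.2 - q.2) (p.1 - q.1))
    (hx : ∀ p : X × (X →L[ℝ] ℝ), (∀ q ∈ G, 0 ≤ (p.2 - q.2) (p.1 - q.1)) → p ∈ G)
    (B : X → X →L[ℝ] ℝ) (hB : ∀ R : ℝ, ∃ M : ℝ, ∀ x, ‖x‖ ≤ R → ‖B x‖ ≤ M)
    (hps : ∀ (u : ℕ → X) (v : X) (y : ℕ → X →L[ℝ] ℝ),
      (∀ f : X →L[ℝ] ℝ, Tendsto (fun j => f (u j)) atTop (𝓝 (f v))) →
      (∀ j, (u j, y j) ∈ G) → (∃ C : ℝ, ∀ j, ‖y j‖ ≤ C) →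
      (∀ ε : ℝ, 0 < ε → ∀ᶠ j in atTop, B (u j) (u j - v) ≤ ε) →
      (∀ x, Tendsto (fun j => B (u j) x) atTop (𝓝 (B v x))) ∧
        Tendsto (fun j => B (u j) (u j - v)) atTop (𝓝 0))
    (R1 : ℝ) (hco : ∀ p ∈ G, R1 ≤ ‖p.1‖ → ‖p.1‖ ≤ (p.2 + B p.1) p.1) :
    ∃ p ∈ G, p.2 + B p.1 = 0 := by
  obtain ⟨R, C, l0, hl0, C0, H⟩ := gal hr G hm hx B hB (fun u v y h1 h2 h3 =>
    (hps u v y (fun f => (f.continuous.tendsto v).comp h1) h2 h3 (small B hB u v h1)).1) R1 hco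
  haveI : Nonempty X := ⟨0⟩
  obtain ⟨e, he⟩ := TopologicalSpace.exists_dense_seq X
  have H1 : ∃ K : ℝ, ∀ n : ℕ, ∃ p ∈ G, ‖p.1‖ ≤ R ∧ ‖p.2‖ ≤ K ∧
      (∀ i < n, (p.2 + B p.1) (e i) = 0) ∧ (p.2 + B p.1) p.1 ≤ 1 / ((n : ℝ) + 1) := by
    by_contra hc
    push Not at hc
    obtain ⟨n0, h0⟩ := hc (22 * (2 * C + 4 + 1))
    obtain ⟨l, l1, l2, l3⟩ : ∃ l, 0 < l ∧ l ≤ l0 ∧
        l * (4 + C * (2 * C + 4)) ≤ 1 / ((n0 : ℝ) + 1) :=
      ⟨min l0 (1 / ((n0 : ℝ) + 1) / (4 + C * (2 * C + 4))), by positivity, min_le_left _ _, by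
        rw [← le_div_iff₀ (by positivity)]; exact min_le_right _ _⟩
    obtain ⟨K, hK⟩ := H l l1 l2
    obtain ⟨n, hn⟩ := hc (22 * (K + 1))
    obtain ⟨p, hp, s, s0, s1, h1, h2, h3, h4⟩ := hK (Submodule.span ℝ (e '' Iio (max n n0)))
      (FiniteDimensional.span_of_finite ℝ ((finite_Iio _).image _))
    have h5 : ∀ i < max n n0, (p.2 + B p.1) (e i) = 0 := fun i hi =>
      h3 _ (Submodule.subset_span ⟨i, hi, rfl⟩)
    rcases le_total s (2 * C + 4) with hs | hs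
    · have h6 := h0 p hp h1 (by linarith) fun i hi => h5 i (lt_max_of_lt_right hi)
      have h7 := mul_le_mul_of_nonneg_left hs (mul_nonneg C0 l1.le)
      have : 0 ≤ l * s ^ 2 := by positivity
      linarith
    · have h6 := hn p hp h1 (by linarith) fun i hi => h5 i (lt_max_of_lt_left hi)
      have h7 := mul_le_mul_of_nonneg_left hs (mul_nonneg l1.le s0)
      have h8 := mul_le_mul_of_nonneg_left (show 4 ≤ s by linarith) l1.le
      have : (0 : ℝ) < 1 / ((n : ℝ) + 1) := by positivity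
      linarith
  obtain ⟨K, H1⟩ := H1
  choose p hp h1 h2 h3 h4 using H1
  obtain ⟨w, φ, hφ, hw⟩ := wseq (fun n => (p n).2) K h2
  obtain ⟨v', ψ, hψ, hv'⟩ := wseq (V := X →L[ℝ] ℝ)
    (fun n => NormedSpace.inclusionInDoubleDual ℝ X (p (φ n)).1) R
    (fun n => (NormedSpace.double_dual_bound ℝ X _).trans (h1 _))
  obtain ⟨v, hv⟩ := hr v'
  have hχ : Tendsto (fun n => φ (ψ n)) atTop atTop := (hφ.comp hψ).tendsto_atTop
  set u : ℕ → X := fun n => (p (φ (ψ n))).1 with hu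
  set y : ℕ → X →L[ℝ] ℝ := fun n => (p (φ (ψ n))).2 with hy
  have huv : ∀ f : X →L[ℝ] ℝ, Tendsto (fun j => f (u j)) atTop (𝓝 (f v)) := fun f => by
    rw [← hv]; exact hv' f
  have hyw : ∀ x, Tendsto (fun j => y j x) atTop (𝓝 (w x)) := fun x =>
    (hw x).comp hψ.tendsto_atTop
  obtain ⟨M, hM⟩ := hB R
  have hF : ∀ x, Tendsto (fun j => (y j + B (u j)) x) atTop (𝓝 0) := fun x => by
    refine Metric.tendsto_nhds.2 fun ε hε => ?_
    obtain ⟨i, hi⟩ := he.exists_dist_lt x (show 0 < ε / (|K + M| + 1) by positivity)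
    rw [dist_eq_norm, lt_div_iff₀ (by positivity)] at hi
    filter_upwards [hχ.eventually_gt_atTop i] with j hj
    have e1 : (y j + B (u j)) x = (y j + B (u j)) (x - e i) := by
      rw [map_sub, h3 _ i hj, sub_zero]
    have e2 : ‖y j + B (u j)‖ ≤ |K + M| :=
      ((norm_add_le _ _).trans (add_le_add (h2 _) (hM _ (h1 _)))).trans (le_abs_self _)
    have := (y j + B (u j)).le_of_opNorm_le e2 (x - e i)
    rw [dist_zero_right, e1]
    linarith [norm_nonneg (x - e i)]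
  have hF1 : ∀ ε : ℝ, 0 < ε → ∀ᶠ j in atTop, y j (u j - v) + B (u j) (u j - v) ≤ ε :=
    fun ε hε => by
      have a1 := (tendsto_one_div_add_atTop_nhds_zero_nat (𝕜 := ℝ)).comp hχ
      filter_upwards [a1.eventually (gt_mem_nhds (half_pos hε)),
        (hF v).eventually (lt_mem_nhds (neg_lt_zero.2 (half_pos hε)))] with j a2 a3
      have := h4 (φ (ψ j))
      simp only [ContinuousLinearMap.add_apply, map_sub, Function.comp, hu, hy] at *
      linarith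
  have hkey : ∀ ε : ℝ, (∃ᶠ j in atTop, y j (u j - v) ≤ ε) → ∀ q ∈ G,
      -ε ≤ (w - q.2) (v - q.1) := fun ε hε q hq => by
    have a1 : Tendsto (fun j => y j (v - q.1) - (q.2 (u j) - q.2 q.1)) atTop
        (𝓝 ((w - q.2) (v - q.1))) := by
      have := (hyw (v - q.1)).sub ((huv q.2).sub_const (q.2 q.1))
      rwa [← map_sub] at this
    refine ge_of_tendsto_of_frequently a1 (hε.mono fun j hj => ?_)
    have := hm _ (hp (φ (ψ j))) _ hq
    simp only [ContinuousLinearMap.sub_apply, map_sub, hu, hy] at *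
    linarith
  obtain ⟨a1, a2⟩ := hps u v y huv (fun j => hp _) ⟨K, fun j => h2 _⟩ fun ε hε => by
    have b1 : ∀ᶠ j in atTop, -(ε / 2) < y j (u j - v) := by
      by_contra hc
      rw [Filter.not_eventually] at hc
      have b2 := hkey (-(ε / 2)) (hc.mono fun j hj => not_lt.1 hj)
      have b3 := b2 _ (hx (v, w) fun q hq => by linarith [b2 q hq])
      simp only [sub_self, map_zero] at b3
      linarith
    filter_upwards [b1, hF1 _ (half_pos hε)] with j b2 b3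
    linarith
  refine ⟨(v, w), hx _ fun q hq => le_of_forall_pos_le_add fun ε hε => ?_, ?_⟩
  · have := hkey ε (Eventually.frequently (by
      filter_upwards [hF1 _ (half_pos hε),
        a2.eventually (lt_mem_nhds (neg_lt_zero.2 (half_pos hε)))] with j b2 b3
      linarith)) q hq
    linarith
  · ext x
    exact tendsto_nhds_unique ((hyw x).add (a1 x)) (hF x)

end Pool.Agent.H.MP_438bde_an
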