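import Pool.Agent.H.MP_438bde_an.D

set_option autoImplicit false
open Set Metric Filter Topology

namespace Pool.Agent.H.MP_438bde_an

theorem clos {Z ι : Type*} [Countable ι] (op : ι → Z → Z → Z) (z0 : Z) :
    ∃ S : Set Z, S.Countable ∧ z0 ∈ S ∧ ∀ i, ∀ a ∈ S, ∀ b ∈ S, op i a b ∈ S := by
  let T : ℕ → Set Z := fun n => Nat.rec {z0} (fun _ A => A ∪ ⋃ i, image2 (op i) A A) n
  have hT : Monotone T := monotone_nat_of_le_succ fun n => subset_union_left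
  have hc : ∀ n, (T n).Countable := fun n => by
    induction n with
    | zero => exact countable_singleton _
    | succ n ih => exact ih.union (countable_iUnion fun i => ih.image2 ih _)
  refine ⟨⋃ n, T n, countable_iUnion hc, mem_iUnion.2 ⟨0, rfl⟩, fun i a ha b hb => ?_⟩
  obtain ⟨m, hm⟩ := mem_iUnion.1 ha
  obtain ⟨n, hn⟩ := mem_iUnion.1 hb
  exact mem_iUnion.2 ⟨max m n + 1, Or.inr (mem_iUnion.2 ⟨i, a, hT (le_max_left _ _) hm, b,
    hT (le_max_right _ _) hn, rfl⟩)⟩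

theorem subm {V : Type*} [NormedAddCommGroup V] [NormedSpace ℝ V] (A : Set V) (h0 : (0 : V) ∈ A)
    (h : ∀ r : ℚ, ∀ a ∈ A, ∀ b ∈ A, a + (r : ℝ) • b ∈ A) :
    ∃ W : Submodule ℝ V, (W : Set V) = closure A :=
  ⟨{ carrier := closure A
     add_mem' := fun ha hb => map_mem_closure₂ continuous_add ha hb fun a ha b hb => by
      simpa using h 1 a ha b hb
     zero_mem' := subset_closure h0
     smul_mem' := fun c x hx => map_mem_closure₂ (f := fun (c : ℝ) (x : V) => c • x)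
      continuous_smul (Rat.denseRange_cast (𝕜 := ℝ) c) hx (by
        rintro _ ⟨r, rfl⟩ b hb
        simpa using h r 0 h0 b hb) }, rfl⟩

theorem minty {X : Type*} [NormedAddCommGroup X] [NormedSpace ℝ X]
    (hr : ∀ φ : (X →L[ℝ] ℝ) →L[ℝ] ℝ, ∃ x : X, ∀ f : X →L[ℝ] ℝ, φ f = f x)
    (G : Set (X × (X →L[ℝ] ℝ))) (hm : ∀ p ∈ G, ∀ q ∈ G, 0 ≤ (p.2 - q.2) (p.1 - q.1))
    (hx : ∀ p : X × (X →L[ℝ] ℝ), (∀ q ∈ G, 0 ≤ (p.2 - q.2) (p.1 - q.1)) → p ∈ G)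
    (a : X × (X →L[ℝ] ℝ)) : ∃ q ∈ G, ∀ p : X × (X →L[ℝ] ℝ),
      0 ≤ (p.2 - q.2) (p.1 - q.1) → dist q p ≤ 6 * dist a p := by
  obtain ⟨q, hq, h⟩ := res hr G hm hx (fun x => ‖x - a.1‖ ^ 2 / 2 - a.2 x)
    ⟨convex_univ, fun x _ x' _ s t hs ht hst => by
      have e : s • x + t • x' - a.1 = s • (x - a.1) + t • (x' - a.1) := by
        rw [smul_sub, smul_sub]
        have : a.1 = s • a.1 + t • a.1 := by rw [← add_smul, hst, one_smul]
        conv_lhs => rw [this]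
        abel
      have := sqc (x - a.1) (x' - a.1) s t hs ht hst
      simp only [e, map_add, map_smul, smul_eq_mul]
      linarith⟩ ((1 + ‖a.1‖) ^ 2 / 2 + ‖a.2‖) (fun x hx => by
      have h1 : ‖x - a.1‖ ≤ 1 + ‖a.1‖ := by linarith [norm_sub_le x a.1]
      have h2 : ‖x - a.1‖ ^ 2 ≤ (1 + ‖a.1‖) ^ 2 := by gcongr
      have h3 := (low a.2 x).1
      have h4 := mul_le_mul_of_nonneg_left hx.le (norm_nonneg a.2)
      linarith)
    (fun ρ => ⟨(|ρ| + ‖a.2‖) ^ 2 / 2 + (|ρ| + ‖a.2‖) * ‖a.1‖, fun v => by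
      have h1 : ‖v‖ ≤ ‖v - a.1‖ + ‖a.1‖ := by
        have := norm_add_le (v - a.1) a.1
        rwa [sub_add_cancel] at this
      have h2 := mul_le_mul_of_nonneg_left h1 (show 0 ≤ |ρ| + ‖a.2‖ by positivity)
      have h3 := (low a.2 v).2
      have h4 := mul_le_mul_of_nonneg_right (le_abs_self ρ) (norm_nonneg v)
      linarith [sq_nonneg (‖v - a.1‖ - (|ρ| + ‖a.2‖))]⟩)
  refine ⟨q, hq, fun p hp => ?_⟩
  have h1 : (q.2 - a.2) (q.1 - a.1) ≤ -(‖q.1 - a.1‖ ^ 2 / 2) := by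
    have := h a.1
    simp only [ContinuousLinearMap.sub_apply, map_sub, sub_self, norm_zero] at this ⊢
    linarith
  have h2 : ‖q.2 - a.2‖ ≤ ‖q.1 - a.1‖ := le_of_forall_pos_le_add fun t ht =>
    opn _ t _ ht (by positivity) fun v hv => by
      have h3 := h (q.1 - v)
      have e : q.1 - v - a.1 = q.1 - a.1 - v := by abel
      have h4 : ‖q.1 - a.1 - v‖ ≤ ‖q.1 - a.1‖ + t := hv ▸ norm_sub_le _ _
      have h5 : ‖q.1 - a.1 - v‖ ^ 2 ≤ (‖q.1 - a.1‖ + t) ^ 2 := by gcongr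
      simp only [e, sub_sub_cancel_left, map_neg] at h3
      simp only [ContinuousLinearMap.sub_apply, map_sub] at h3 ⊢
      nlinarith
  obtain ⟨ε, hε⟩ : ∃ ε, ε = dist a p := ⟨_, rfl⟩
  have ε0 : 0 ≤ ε := hε ▸ dist_nonneg
  have h3 : ‖a.1 - p.1‖ ≤ ε := by rw [hε, dist_eq_norm]; exact norm_fst_le (a - p)
  have h4 : ‖a.2 - p.2‖ ≤ ε := by rw [hε, dist_eq_norm]; exact norm_snd_le (a - p)
  have h5 : ‖q.1 - a.1‖ ≤ 5 * ε := by
    have b1 := (low (q.2 - a.2) (a.1 - p.1)).2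
    have b2 := (low (a.2 - p.2) (q.1 - a.1)).2
    have b3 := (low (a.2 - p.2) (a.1 - p.1)).2
    have b4 := mul_le_mul h2 h3 (norm_nonneg _) (norm_nonneg _)
    have b5 := mul_le_mul_of_nonneg_right h4 (norm_nonneg (q.1 - a.1))
    have b6 := mul_le_mul h4 h3 (norm_nonneg _) ε0
    have b7 : ‖q.1 - a.1‖ ^ 2 / 2 ≤ 2 * ε * ‖q.1 - a.1‖ + ε ^ 2 := by
      simp only [ContinuousLinearMap.sub_apply, map_sub] at b1 b2 b3 hp h1
      linarith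
    by_contra hc
    push Not at hc
    nlinarith
  rw [← hε, Prod.dist_eq, dist_eq_norm, dist_eq_norm, max_le_iff]
  constructor
  · linarith [norm_sub_le_norm_sub_add_norm_sub q.1 a.1 p.1]
  · linarith [norm_sub_le_norm_sub_add_norm_sub q.2 a.2 p.2]

theorem main {X : Type*} [NormedAddCommGroup X] [NormedSpace ℝ X]
    (hr : ∀ φ : (X →L[ℝ] ℝ) →L[ℝ] ℝ, ∃ x : X, ∀ f : X →L[ℝ] ℝ, φ f = f x)
    (G : Set (X × (X →L[ℝ] ℝ))) (hm : ∀ p ∈ G, ∀ q ∈ G, 0 ≤ (p.2 - q.2) (p.1 - q.1))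
    (hx : ∀ p : X × (X →L[ℝ] ℝ), (∀ q ∈ G, 0 ≤ (p.2 - q.2) (p.1 - q.1)) → p ∈ G)
    (B : X → X →L[ℝ] ℝ) (hB : ∀ R : ℝ, ∃ M : ℝ, ∀ x, ‖x‖ ≤ R → ‖B x‖ ≤ M)
    (hps : ∀ (u : ℕ → X) (v : X) (y : ℕ → X →L[ℝ] ℝ),
      (∀ f : X →L[ℝ] ℝ, Tendsto (fun j => f (u j)) atTop (𝓝 (f v))) →
      (∀ j, (u j, y j) ∈ G) → (∃ C : ℝ, ∀ j, ‖y j‖ ≤ C) →
      (∀ ε : ℝ, 0 < ε → ∀ᶠ j in atTop, B (u j) (u j - v) ≤ ε) →
      (∀ x, Tendsto (fun j => B (u j) x) atTop (𝓝 (B v x))) ∧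
        Tendsto (fun j => B (u j) (u j - v)) atTop (𝓝 0))
    (R1 : ℝ) (hco : ∀ p ∈ G, R1 ≤ ‖p.1‖ → ‖p.1‖ ≤ (p.2 + B p.1) p.1) :
    ∃ p ∈ G, p.2 + B p.1 = 0 := by
  choose q hq hqd using minty hr G hm hx
  choose ν hν1 hν2 using fun x : X => exists_dual_vector'' ℝ x
  have : ∀ y : X →L[ℝ] ℝ, ∃ n : X, ‖n‖ ≤ 1 ∧ ‖y‖ ≤ 2 * ‖y n‖ := fun y => by
    rcases (norm_nonneg y).eq_or_lt with h | h
    · exact ⟨0, by simp, by rw [← h]; positivity⟩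
    · obtain ⟨n, h1, h2⟩ := y.exists_lt_apply_of_lt_opNorm (half_lt_self h)
      exact ⟨n, h1.le, by linarith⟩
  choose n hn1 hn2 using this
  obtain ⟨S, hS, S0, hop⟩ := clos (Z := X × (X →L[ℝ] ℝ)) (ι := ℚ ⊕ Fin 4)
    (Sum.elim (fun r a b => a + (r : ℝ) • b)
      ![fun a b => (a.1, b.2), fun a _ => (n a.2, ν a.1), fun a _ => q a, fun a _ => (0, B a.1)]) 0
  have o1 : ∀ a ∈ S, ∀ b ∈ S, (a.1, b.2) ∈ S := hop (Sum.inr 0)
  have o2 : ∀ a ∈ S, (n a.2, ν a.1) ∈ S := fun a ha => hop (Sum.inr 1) a ha a ha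
  have o3 : ∀ a ∈ S, q a ∈ S := fun a ha => hop (Sum.inr 2) a ha a ha
  have o4 : ∀ a ∈ S, (0, B a.1) ∈ S := fun a ha => hop (Sum.inr 3) a ha a ha
  obtain ⟨V, hV⟩ := subm (Prod.fst '' S) ⟨0, S0, rfl⟩ (by
    rintro r _ ⟨a, ha, rfl⟩ _ ⟨b, hb, rfl⟩
    exact ⟨_, hop (Sum.inl r) a ha b hb, rfl⟩)
  obtain ⟨W, hW⟩ := subm (Prod.snd '' S) ⟨0, S0, rfl⟩ (by
    rintro r _ ⟨a, ha, rfl⟩ _ ⟨b, hb, rfl⟩
    exact ⟨_, hop (Sum.inl r) a ha b hb, rfl⟩)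
  have Vc : IsClosed (V : Set X) := hV ▸ isClosed_closure
  have Wc : IsClosed (W : Set (X →L[ℝ] ℝ)) := hW ▸ isClosed_closure
  have V1 : ∀ a ∈ S, a.1 ∈ V := fun a ha => by
    rw [← SetLike.mem_coe, hV]; exact subset_closure ⟨a, ha, rfl⟩
  have W1 : ∀ a ∈ S, a.2 ∈ W := fun a ha => by
    rw [← SetLike.mem_coe, hW]; exact subset_closure ⟨a, ha, rfl⟩
  have key : ∀ p : X × (X →L[ℝ] ℝ), p.1 ∈ V → p.2 ∈ W →
      (∀ a ∈ G, a ∈ S → 0 ≤ (p.2 - a.2) (p.1 - a.1)) → p ∈ G ∧ B p.1 ∈ W := fun p h1 h2 h3 => by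
    rw [← SetLike.mem_coe, hV, mem_closure_iff_seq_limit] at h1
    rw [← SetLike.mem_coe, hW, mem_closure_iff_seq_limit] at h2
    obtain ⟨x, hx1, hx2⟩ := h1
    obtain ⟨y, hy1, hy2⟩ := h2
    have b1 : ∀ j, (x j, y j) ∈ S := fun j => by
      obtain ⟨a, ha, e1⟩ := hx1 j
      obtain ⟨b, hb, e2⟩ := hy1 j
      rw [← e1, ← e2]; exact o1 a ha b hb
    have b2 : Tendsto (fun j => q (x j, y j)) atTop (𝓝 p) := by
      rw [tendsto_iff_dist_tendsto_zero]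
      refine squeeze_zero (fun j => dist_nonneg) (fun j => hqd _ p (h3 _ (hq _) (o3 _ (b1 j)))) ?_
      simpa using (tendsto_iff_dist_tendsto_zero.1 (hx2.prodMk_nhds hy2)).const_mul 6
    have b3 := (continuous_fst.tendsto p).comp b2
    obtain ⟨M, hM⟩ := ((continuous_snd.norm.tendsto p).comp b2).bddAbove_range
    refine ⟨hx p fun a ha => ?_, sep W Wc _ fun φ hφ => ?_⟩
    · have : Continuous fun p : X × (X →L[ℝ] ℝ) => (p.2 - a.2) (p.1 - a.1) := by fun_prop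
      exact ge_of_tendsto' ((this.tendsto p).comp b2) fun j => hm _ (hq _) _ ha
    · obtain ⟨z, hz⟩ := hr φ
      have b4 := (hps _ p.1 (fun j => (q (x j, y j)).2)
        (fun f => (f.continuous.tendsto _).comp b3) (fun j => hq _) ⟨M, fun j => hM ⟨j, rfl⟩⟩
        (small B hB _ _ b3)).1 z
      rw [hz]
      refine tendsto_nhds_unique b4 (tendsto_const_nhds.congr fun j => ?_)
      rw [← hz]
      exact (hφ _ (W1 _ (o4 _ (o3 _ (b1 j))))).symm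
  obtain ⟨ρ, hρ⟩ : ∃ ρ : (X →L[ℝ] ℝ) →L[ℝ] (V →L[ℝ] ℝ), ∀ f (x : V), ρ f x = f x :=
    ⟨(ContinuousLinearMap.compL ℝ V X ℝ).flip V.subtypeL, fun _ _ => rfl⟩
  have hρ1 : ∀ f, ‖ρ f‖ ≤ ‖f‖ := fun f =>
    (ρ f).opNorm_le_bound (norm_nonneg _) fun x => by rw [hρ]; exact f.le_opNorm _
  have hρ2 : ∀ y ∈ W, ‖y‖ ≤ 2 * ‖ρ y‖ := fun y hy => by
    rw [← SetLike.mem_coe, hW] at hy
    refine closure_minimal (s := Prod.snd '' S) (t := {y | ‖y‖ ≤ 2 * ‖ρ y‖}) ?_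
      (isClosed_le continuous_norm (continuous_const.mul (Continuous.norm (E := V →L[ℝ] ℝ)
        ρ.continuous))) hy
    rintro _ ⟨a, ha, rfl⟩
    have b1 := (ρ a.2).unit_le_opNorm ⟨n a.2, V1 _ (o2 a ha)⟩ (hn1 a.2)
    rw [hρ] at b1
    have := hn2 a.2
    show ‖a.2‖ ≤ 2 * ‖ρ a.2‖
    linarith
  have hrV : ∀ φ : (V →L[ℝ] ℝ) →L[ℝ] ℝ, ∃ x : V, ∀ f : V →L[ℝ] ℝ, φ f = f x := fun φ => by
    obtain ⟨x, hx⟩ := hr (φ.comp ρ)
    have b1 : x ∈ V := sep V Vc x fun f hf => by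
      rw [← hx, ContinuousLinearMap.comp_apply, show ρ f = 0 from
        ContinuousLinearMap.ext fun v => by rw [hρ]; exact hf v v.2, map_zero]
    refine ⟨⟨x, b1⟩, fun f => ?_⟩
    obtain ⟨g, hg, -⟩ := exists_extension_norm_eq V f
    rw [← hg, ← hx, ContinuousLinearMap.comp_apply]
    congr 1
    exact ContinuousLinearMap.ext fun v => by rw [hρ, hg]
  have hsur : ∀ ξ : V →L[ℝ] ℝ, ∃ y ∈ W, ρ y = ξ := fun ξ => by
    haveI : CompleteSpace W := Wc.completeSpace_coe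
    have b1 : AntilipschitzWith 2 (ρ.comp W.subtypeL) :=
      AntilipschitzWith.of_le_mul_dist fun y y' => by
        rw [dist_eq_norm, dist_eq_norm, ← map_sub]
        exact hρ2 _ (y - y').2
    have b2 := b1.isClosed_range (ρ.comp W.subtypeL).uniformContinuous
    obtain ⟨y, hy⟩ := sep (ρ.comp W.subtypeL).range b2 ξ fun φ hφ => by
      obtain ⟨x, hx⟩ := hrV φ
      have b3 : (x : X) ∈ closure (Prod.fst '' S) := hV ▸ x.2
      have b4 : ‖(x : X)‖ ≤ ‖(x : X) - x‖ := by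
        refine closure_minimal (s := Prod.fst '' S) (t := {z | ‖z‖ ≤ ‖z - x‖}) ?_
          (isClosed_le (by fun_prop) (by fun_prop)) b3
        rintro _ ⟨a, ha, rfl⟩
        have b5 := hφ _ ⟨⟨ν a.1, W1 _ (o2 a ha)⟩, rfl⟩
        rw [hx] at b5
        have b6 : ν a.1 x = 0 := (hρ _ _).symm.trans b5
        have b7 := (low (ν a.1) (a.1 - x)).2
        have b8 := mul_le_mul_of_nonneg_right (hν1 a.1) (norm_nonneg (a.1 - x))
        rw [map_sub, b6, hν2] at b7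
        show ‖a.1‖ ≤ ‖a.1 - x‖
        simp only [RCLike.ofReal_real_eq_id, id] at b7
        linarith
      rw [sub_self, norm_zero, norm_le_zero_iff] at b4
      rw [hx, show x = 0 from Subtype.ext b4, map_zero]
    exact ⟨y, y.2, hy⟩
  haveI : TopologicalSpace.SeparableSpace V := by
    have := (hS.image Prod.fst).isSeparable.closure
    rw [← hV] at this
    exact this.separableSpace
  haveI : TopologicalSpace.SeparableSpace W := by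
    have := (hS.image Prod.snd).isSeparable.closure
    rw [← hW] at this
    exact this.separableSpace
  haveI : TopologicalSpace.SeparableSpace (V →L[ℝ] ℝ) :=
    DenseRange.separableSpace (f := ρ.comp W.subtypeL) (Function.Surjective.denseRange fun ξ => by
      obtain ⟨y, hy, e⟩ := hsur ξ
      exact ⟨⟨y, hy⟩, e⟩) (ρ.comp W.subtypeL).continuous
  obtain ⟨p, ⟨y, hy, h1, h2⟩, h3⟩ := sepm hrV {p | ∃ y ∈ W, ((p.1 : X), y) ∈ G ∧ ρ y = p.2}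
    (by
      rintro p ⟨y, -, h1, h2⟩ p' ⟨y', -, h3, h4⟩
      rw [← h2, ← h4, ← map_sub, hρ]
      exact hm _ h1 _ h3)
    (fun p hp => by
      obtain ⟨y, hy, e⟩ := hsur p.2
      refine ⟨y, hy, (key (p.1, y) p.1.2 hy fun a ha haS => ?_).1, e⟩
      have := hp (⟨a.1, V1 a haS⟩, ρ a.2) ⟨a.2, W1 a haS, ha, rfl⟩
      rw [← e, ← map_sub, hρ] at this
      exact this)
    (fun x => ρ (B x)) (fun R => by
      obtain ⟨M, hM⟩ := hB R
      exact ⟨M, fun x hx => (hρ1 _).trans (hM x hx)⟩)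
    (fun u v y h1 h2 ⟨C, h3⟩ h4 => by
      choose y' hy1 hy2 hy3 using h2
      obtain ⟨b1, b2⟩ := hps (fun j => u j) v y' (fun f => by simpa only [hρ] using h1 (ρ f)) hy2
        ⟨2 * C, fun j => (hρ2 _ (hy1 j)).trans (by rw [hy3]; linarith [h3 j])⟩
        (by simpa only [hρ, Submodule.coe_sub] using h4)
      exact ⟨fun x => by simpa only [hρ] using b1 x, by simpa only [hρ, Submodule.coe_sub] using b2⟩) R1
    (by
      rintro p ⟨y, -, h1, h2⟩ h3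
      rw [← h2, ← map_add, hρ]
      exact hco _ h1 h3)
  refine ⟨_, h1, ?_⟩
  have := hρ2 _ (W.add_mem hy (key _ p.1.2 hy fun a ha _ => hm _ h1 _ ha).2)
  rw [map_add, h2, h3, ContinuousLinearMap.opNorm_zero, mul_zero] at this
  exact norm_le_zero_iff.1 this

end Pool.Agent.H.MP_438bde_an
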